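import Pool.Agent.Helper63.GW.StB

/-!
Project GW (MP_b454d1_nt), module CL2: two groups and a third block.
-/

set_option autoImplicit false

namespace Pool.Agent.Helper99.GW

open Finset ArithmeticFunction MeasureTheory
open Pool.Agent.Helper63.GW

theorem gauss_int (c W : ℝ) (hW : 1 ≤ W) :
    Integrable fun t : ℝ => Real.exp (-((t - c) / W) ^ 2) := by
  have h := (integrable_exp_neg_mul_sq (b := (1 / W) ^ 2) (by positivity)).comp_sub_right c
  refine h.congr (Filter.Eventually.of_forall fun t => ?_)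
  simp only
  congr 1
  ring

theorem cl2_large (C D : ℕ) : ∃ X0 : ℕ, ∀ X : ℕ, X0 ≤ X →
    1024 ≤ X ∧ (C : ℝ) ≤ Real.log X ∧ 5 ≤ Real.log X ∧ √X * Real.log X ^ D ≤ X := by
  have h1 : ∀ᶠ X : ℕ in Filter.atTop, (C : ℝ) ≤ Real.log X :=
    (Real.tendsto_log_atTop.comp tendsto_natCast_atTop_atTop).eventually_ge_atTop _
  have h2 : ∀ᶠ X : ℕ in Filter.atTop, (5 : ℝ) ≤ Real.log X :=
    (Real.tendsto_log_atTop.comp tendsto_natCast_atTop_atTop).eventually_ge_atTop _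
  have h3 : ∀ᶠ x : ℝ in Filter.atTop, ‖Real.log x ^ (2 * D)‖ ≤ 1 * ‖x‖ :=
    (Real.isLittleO_pow_log_id_atTop (n := 2 * D)).bound one_pos
  have h4 : ∀ᶠ X : ℕ in Filter.atTop, ‖Real.log (X : ℝ) ^ (2 * D)‖ ≤ 1 * ‖(X : ℝ)‖ :=
    tendsto_natCast_atTop_atTop.eventually h3
  have h5 : ∀ᶠ X : ℕ in Filter.atTop, 1024 ≤ X := Filter.eventually_ge_atTop _
  obtain ⟨X0, hX0⟩ := Filter.eventually_atTop.mp (h1.and (h2.and (h4.and h5)))
  refine ⟨X0, fun X hX => ?_⟩
  obtain ⟨g1, g2, g3, g4⟩ := hX0 X hX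
  refine ⟨g4, g1, g2, ?_⟩
  have hXn : (0 : ℝ) ≤ X := Nat.cast_nonneg X
  have hL : 0 ≤ Real.log (X : ℝ) := by linarith
  rw [Real.norm_of_nonneg (by positivity), one_mul, Real.norm_of_nonneg hXn, mul_comm 2 D,
    pow_mul] at g3
  have h6 : Real.log (X : ℝ) ^ D ≤ √X := Real.le_sqrt_of_sq_le g3
  calc √X * Real.log X ^ D ≤ √X * √X := mul_le_mul_of_nonneg_left h6 (Real.sqrt_nonneg _)
    _ = X := Real.mul_self_sqrt hXn

theorem hCL2 : StBkt → StBkb → StMea8 → StGme → StNfb → StNqp → StCl2 := by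
  intro hBkt hBkb hMea hGme hNfb hNqp A B D c₀ hc₀
  obtain ⟨C₁, hC₁⟩ := hMea
  obtain ⟨C₂, hC₂⟩ := hGme
  obtain ⟨-, -, hbc, hbb⟩ := hBkb
  obtain ⟨-, hNmul, -, -, hNrg, -, hNsq, -⟩ := hNfb
  set A' : ℕ := A + C₁ + C₂ + D + 1 with hA'
  obtain ⟨B1₀, X0a, hbkt⟩ := hBkt A' B c₀ hc₀
  obtain ⟨X0b, hlarge⟩ := cl2_large (20 * C₁ * C₂ + 1) D
  refine ⟨B1₀, max X0a X0b, ?_⟩
  intro B1 hB1 X hX q _ χ e R k W hq hXe heX hkR hke hRk hW hWR
  obtain ⟨hX1, hLC, hL5, hTX⟩ := hlarge X ((le_max_right _ _).trans hX)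
  have hXa : X0a ≤ X := (le_max_left _ _).trans hX
  set L : ℝ := Real.log X with hLdef
  have hL1 : 1 ≤ L := by linarith
  have hL0 : 0 < L := by linarith
  set T : ℝ := √X * L ^ D with hT
  have hXr : (1024 : ℝ) ≤ X := by exact_mod_cast hX1
  have hX0 : (0 : ℝ) < X := by linarith
  have hsX1 : 1 ≤ √(X : ℝ) := by
    rw [Real.one_le_sqrt]
    linarith
  have hT1 : 1 ≤ T := one_le_mul_of_one_le_of_one_le hsX1 (one_le_pow₀ hL1)
  obtain ⟨hq1, -, hq3, -⟩ := hNqp W hW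
  -- the exponents
  have hE : (1 : ℝ) + ((∑ i, e i : ℕ) : ℝ) ≤ L ^ 2 := by
    have h1 : ((2 : ℝ) ^ (∑ i, e i)) ≤ 1024 * X := by exact_mod_cast heX
    have h2 : Real.log ((2 : ℝ) ^ (∑ i, e i)) ≤ Real.log (1024 * X) :=
      Real.log_le_log (by positivity) h1
    rw [Real.log_pow, Real.log_mul (by norm_num) hX0.ne',
      show (1024 : ℝ) = 2 ^ 10 by norm_num, Real.log_pow] at h2
    have hl2 : (1 : ℝ) / 2 < Real.log 2 := by
      have := Real.log_two_gt_d9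
      linarith
    have h3 : ((∑ i, e i : ℕ) : ℝ) ≤ 10 + 2 * L := by
      have h4 : (((∑ i, e i : ℕ) : ℝ) - 10) * Real.log 2 ≤ L := by
        push_cast at h2 ⊢
        linarith
      by_contra hcon
      push Not at hcon
      nlinarith
    nlinarith
  have hsub : ∀ S : Finset (Fin 8), (1 : ℝ) + ∑ i ∈ S, (e i : ℝ) ≤ L ^ 2 := by
    intro S
    refine le_trans ?_ hE
    have : ∑ i ∈ S, (e i : ℝ) ≤ ∑ i, (e i : ℝ) :=
      sum_le_sum_of_subset_of_nonneg (subset_univ _) fun i _ _ => Nat.cast_nonneg _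
    push_cast
    linarith
  have hsub0 : ∀ S : Finset (Fin 8), (0 : ℝ) ≤ 1 + ∑ i ∈ S, (e i : ℝ) := by
    intro S
    have : (0 : ℝ) ≤ ∑ i ∈ S, (e i : ℝ) := sum_nonneg fun i _ => Nat.cast_nonneg _
    linarith
  set S : Finset (Fin 8) := univ \ insert k R with hS
  have hsplit : ∀ f : Fin 8 → ℝ, ∏ i, f i = (∏ i ∈ R, f i) * (f k * ∏ i ∈ S, f i) := by
    intro f
    rw [← prod_sdiff (subset_univ (insert k R)), prod_insert hkR]
    ring
  have hsplit' : ∑ i, e i = ∑ i ∈ R, e i + e k + ∑ i ∈ S, e i := by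
    rw [← sum_sdiff (subset_univ (insert k R)), sum_insert hkR]
    ring
  -- the functions
  set a : ℝ := L ^ B1 with ha
  set c : ℝ := 1 / L ^ A' with hc
  have hc0 : 0 < c := by positivity
  set F : ℝ → ℝ := rg a T (PP8 χ e) with hF
  set P : ℝ → ℝ := rg a T (fun t => ∏ i ∈ R, bk χ i (e i) t) with hP
  set Q : ℝ → ℝ := rg a T (fun t => (c : ℂ) * ∏ i ∈ S, bk χ i (e i) t) with hQ
  have hcont : ∀ S' : Finset (Fin 8), Continuous fun t => ∏ i ∈ S', bk χ i (e i) t :=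
    fun S' => continuous_finsetProd _ fun i _ => hbc q χ i (e i)
  have hFn : NF F := hNrg a T _ (by
    unfold PP8
    exact hcont univ)
  have hPn : NF P := hNrg a T _ (hcont R)
  have hQn : NF Q := hNrg a T _ (continuous_const.mul (hcont S))
  have hek : (2 : ℝ) ^ e k ≤ (X : ℝ) ^ 2 := by
    have h1 : e k ≤ ∑ i, e i := single_le_sum (fun i _ => Nat.zero_le _) (mem_univ k)
    have h2 : (2 : ℝ) ^ e k ≤ 2 ^ (∑ i, e i) := pow_le_pow_right₀ (by norm_num) h1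
    have h3 : ((2 : ℝ) ^ (∑ i, e i)) ≤ 1024 * X := by exact_mod_cast heX
    nlinarith
  have hFPQ : ∀ s, F s ≤ P s * Q s := by
    intro s
    rw [hF, hP, hQ]
    unfold rg
    by_cases h : a ≤ |s| ∧ |s| ≤ T
    · rw [if_pos h, if_pos h, if_pos h]
      have h1 : ‖bk χ k (e k) s‖ ≤ c := by
        refine hbkt X hXa q χ k (e k) s hq hke (by exact_mod_cast hek) ?_ (h.2.trans hTX)
        exact (pow_le_pow_right₀ hL1 hB1).trans h.1
      unfold PP8
      rw [norm_prod, hsplit fun i => ‖bk χ i (e i) s‖, norm_prod, norm_mul, norm_prod,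
        Complex.norm_real, Real.norm_of_nonneg hc0.le]
      have h2 : 0 ≤ ∏ i ∈ R, ‖bk χ i (e i) s‖ := prod_nonneg fun i _ => norm_nonneg _
      have h3 : 0 ≤ ∏ i ∈ S, ‖bk χ i (e i) s‖ := prod_nonneg fun i _ => norm_nonneg _
      exact mul_le_mul_of_nonneg_left (mul_le_mul_of_nonneg_right h1 h3) h2
    · rw [if_neg h, if_neg h, if_neg h]
      simp
  -- the first group
  set M : ℝ := 2 * C₂ * L ^ (2 * C₂) with hM
  have hM0 : 0 ≤ M := by positivity
  have hgroup1 : ∀ c' : ℝ, ∫ s : ℝ, P s ^ 2 * Real.exp (-((s - c') / W) ^ 2) ≤ M := by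
    intro c'
    have h1 : ∫ s : ℝ, P s ^ 2 * Real.exp (-((s - c') / W) ^ 2)
        ≤ ∫ t : ℝ, (∏ i ∈ R, ‖bk χ i (e i) t‖ ^ 2) * Real.exp (-((t - c') / W) ^ 2) := by
      refine integral_mono_of_nonneg (Filter.Eventually.of_forall fun s => by positivity) ?_
        (Filter.Eventually.of_forall fun s => ?_)
      · refine ((gauss_int c' W hW).const_mul (∏ i ∈ R, (4 * (1 + (e i : ℝ))) ^ 2)).mono' ?_ ?_
        · refine Continuous.aestronglyMeasurable ?_
          refine (continuous_finsetProd _ fun i _ => ((hbc q χ i (e i)).norm.pow 2)).mul ?_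
          fun_prop
        · refine Filter.Eventually.of_forall fun t => ?_
          rw [norm_mul, Real.norm_of_nonneg (prod_nonneg fun i _ => by positivity),
            Real.norm_of_nonneg (Real.exp_pos _).le]
          refine mul_le_mul_of_nonneg_right ?_ (Real.exp_pos _).le
          refine prod_le_prod (fun i _ => by positivity) fun i _ => ?_
          exact pow_le_pow_left₀ (norm_nonneg _) (hbb q χ i (e i) t) 2
      · refine mul_le_mul_of_nonneg_right ?_ (Real.exp_pos _).le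
        rw [hP]
        unfold rg
        split_ifs
        · rw [norm_prod, ← prod_pow]
        · simp only [ne_eq, OfNat.ofNat_ne_zero, not_false_eq_true, zero_pow]
          exact prod_nonneg fun i _ => by positivity
    refine h1.trans ((hC₂ q χ e R c' W hW).trans ?_)
    have h2 : W / 2 ^ (∑ i ∈ R, e i) + 1 ≤ 2 := by
      have : W / 2 ^ (∑ i ∈ R, e i) ≤ 1 := by
        rw [div_le_one (by positivity)]
        exact hWR
      linarith
    have h3 : (1 + ∑ i ∈ R, (e i : ℝ)) ^ C₂ ≤ (L ^ 2) ^ C₂ :=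
      pow_le_pow_left₀ (hsub0 R) (hsub R) C₂
    calc (C₂ : ℝ) * (W / 2 ^ (∑ i ∈ R, e i) + 1) * (1 + ∑ i ∈ R, (e i : ℝ)) ^ C₂
        ≤ C₂ * 2 * (L ^ 2) ^ C₂ := by
          refine mul_le_mul (mul_le_mul_of_nonneg_left h2 (Nat.cast_nonneg _)) h3
            (pow_nonneg (hsub0 R) _) (by positivity)
      _ = M := by rw [hM, pow_mul]; ring
  -- the second group
  have hgroup2 : ∫ s : ℝ, Q s ^ 2 ≤ c ^ 2 * (C₁ * (4 * L ^ D + 1) * L ^ (2 * C₁)) := by
    have hz : ∀ s, s ∉ Set.Icc (-T) T → Q s ^ 2 = 0 := by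
      intro s hs
      rw [hQ]
      unfold rg
      rw [if_neg, zero_pow (by norm_num)]
      rintro ⟨-, h⟩
      exact hs (abs_le.mp h)
    rw [← setIntegral_eq_integral_of_forall_compl_eq_zero hz]
    have hTT : -T ≤ T := by linarith
    have hgc : Continuous fun t => c ^ 2 * ∏ i ∈ S, ‖bk χ i (e i) t‖ ^ 2 :=
      continuous_const.mul (continuous_finsetProd _ fun i _ => (hbc q χ i (e i)).norm.pow 2)
    have h1 : ∫ s in Set.Icc (-T) T, Q s ^ 2
        ≤ ∫ s in Set.Icc (-T) T, c ^ 2 * ∏ i ∈ S, ‖bk χ i (e i) s‖ ^ 2 := by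
      refine setIntegral_mono_on (hNsq Q hQn).integrableOn hgc.integrableOn_Icc
        measurableSet_Icc fun s _ => ?_
      rw [hQ]
      unfold rg
      split_ifs
      · rw [norm_mul, norm_prod, Complex.norm_real, Real.norm_of_nonneg hc0.le, mul_pow,
          ← prod_pow]
      · simp only [ne_eq, OfNat.ofNat_ne_zero, not_false_eq_true, zero_pow]
        exact mul_nonneg (by positivity) (prod_nonneg fun i _ => by positivity)
    refine h1.trans ?_
    rw [integral_Icc_eq_integral_Ioc, ← intervalIntegral.integral_of_le hTT,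
      intervalIntegral.integral_const_mul]
    refine mul_le_mul_of_nonneg_left ?_ (by positivity)
    have h2 := hC₁ q χ e S 0 T hT1
    rw [zero_sub, zero_add] at h2
    refine h2.trans ?_
    have h3 : (X : ℝ) ≤ 16 * (2 ^ (∑ i ∈ S, e i)) ^ 2 := by
      have h4 : (X : ℝ) ≤ 16 * 2 ^ (∑ i, e i) := by exact_mod_cast hXe
      have h5 : ∑ i, e i ≤ 2 * ∑ i ∈ S, e i := by omega
      have h6 : (2 : ℝ) ^ (∑ i, e i) ≤ 2 ^ (2 * ∑ i ∈ S, e i) :=
        pow_le_pow_right₀ (by norm_num) h5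
      rw [mul_comm 2, pow_mul] at h6
      linarith
    have h4 : √(X : ℝ) ≤ 4 * 2 ^ (∑ i ∈ S, e i) := by
      refine Real.sqrt_le_iff.mpr ⟨by positivity, ?_⟩
      rw [mul_pow]
      linarith
    have h5 : T / 2 ^ (∑ i ∈ S, e i) ≤ 4 * L ^ D := by
      rw [div_le_iff₀ (by positivity), hT]
      have : 0 ≤ L ^ D := by positivity
      nlinarith
    have h6 : (1 + ∑ i ∈ S, (e i : ℝ)) ^ C₁ ≤ (L ^ 2) ^ C₁ :=
      pow_le_pow_left₀ (hsub0 S) (hsub S) C₁
    calc (C₁ : ℝ) * (T / 2 ^ (∑ i ∈ S, e i) + 1) * (1 + ∑ i ∈ S, (e i : ℝ)) ^ C₁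
        ≤ C₁ * (4 * L ^ D + 1) * (L ^ 2) ^ C₁ := by
          refine mul_le_mul (mul_le_mul_of_nonneg_left (by linarith) (Nat.cast_nonneg _)) h6
            (pow_nonneg (hsub0 S) _) (by positivity)
      _ = C₁ * (4 * L ^ D + 1) * L ^ (2 * C₁) := by rw [pow_mul]
  -- conclusion
  have hfin : NQ W F ≤ 2 * M * ∫ s : ℝ, Q s ^ 2 :=
    (hq1 F (fun s => P s * Q s) hFn (hNmul P Q hPn hQn) hFPQ).trans
      (hq3 P Q M hPn hQn hM0 hgroup1)
  refine hfin.trans ?_
  have h1 : 2 * M * ∫ s : ℝ, Q s ^ 2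
      ≤ 2 * M * (c ^ 2 * (C₁ * (4 * L ^ D + 1) * L ^ (2 * C₁))) :=
    mul_le_mul_of_nonneg_left hgroup2 (by positivity)
  refine h1.trans ?_
  have hLC' : 20 * (C₁ : ℝ) * C₂ ≤ L := by
    push_cast at hLC
    linarith
  have hLD : 1 ≤ L ^ D := one_le_pow₀ hL1
  have h2 : 4 * (C₁ : ℝ) * C₂ * (4 * L ^ D + 1) ≤ L ^ (D + 1) := by
    calc 4 * (C₁ : ℝ) * C₂ * (4 * L ^ D + 1) ≤ 4 * (C₁ : ℝ) * C₂ * (5 * L ^ D) := by
          refine mul_le_mul_of_nonneg_left (by linarith) (by positivity)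
      _ = 20 * (C₁ : ℝ) * C₂ * L ^ D := by ring
      _ ≤ L * L ^ D := mul_le_mul_of_nonneg_right hLC' (by positivity)
      _ = L ^ (D + 1) := by ring
  calc 2 * M * (c ^ 2 * (C₁ * (4 * L ^ D + 1) * L ^ (2 * C₁)))
      = (4 * (C₁ : ℝ) * C₂ * (4 * L ^ D + 1)) * (L ^ (2 * C₂) * L ^ (2 * C₁) * c ^ 2) := by
        rw [hM]; ring
    _ ≤ L ^ (D + 1) * (L ^ (2 * C₂) * L ^ (2 * C₁) * c ^ 2) :=
        mul_le_mul_of_nonneg_right h2 (by positivity)
    _ ≤ 1 / L ^ A := by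
        rw [hc, div_pow, one_pow, ← pow_mul, le_div_iff₀ (by positivity)]
        have h3 : L ^ (D + 1) * (L ^ (2 * C₂) * L ^ (2 * C₁) * (1 / L ^ (A' * 2))) * L ^ A
            = L ^ (D + 1 + 2 * C₂ + 2 * C₁ + A) / L ^ (A' * 2) := by
          rw [pow_add, pow_add, pow_add]
          ring
        rw [h3, div_le_one (by positivity)]
        refine pow_le_pow_right₀ hL1 ?_
        rw [hA']
        omega

end Pool.Agent.Helper99.GW
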